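import Pool.Agent.U481.HW.Stm

set_option autoImplicit false

/-! Project HW (helper481), package HMW. -/

open MeasureTheory Filter Topology Set
open scoped ENNReal NNReal

namespace Pool.Agent.U901.HW

open Pool.Dav Pool.Agent.U481.HW

theorem lo_eq_self {f : ℝ → ℂ} {R : ℝ} (hR : ∀ x, R < |x| → f x = 0) {q : ℤ × ℤ}
    (hq : ∀ x, |x| ≤ R → x ∈ D3 q) : lo f q = f := by
  funext x
  unfold lo
  by_cases hx : x ∈ D3 q
  · rw [indicator_of_mem hx]
  · rw [indicator_of_notMem hx]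
    rw [hR x]
    by_contra h
    exact hx (hq x (not_lt.mp h))

theorem main : S_iter → S_sum → S_hmw := by
  rintro ⟨C₁, hC₁, hit⟩ hsum p hp w K hK
  obtain ⟨C₂, hC₂, hs⟩ := hsum p hp w K hK
  have hp0 : (0 : ℝ) ≤ p := by linarith
  have hCp : C₁ ^ p < ⊤ := ENNReal.rpow_lt_top_of_nonneg hp0 hC₁.ne
  refine ⟨2 * (C₁ ^ p * C₂), ENNReal.mul_lt_top (by simp) (ENNReal.mul_lt_top hCp hC₂), ?_⟩
  rintro f hf ⟨R, hR⟩
  -- one dyadic interval
  have key : ∀ q : ℤ × ℤ, (∀ x, |x| ≤ R → x ∈ D3 q) →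
      (∫⁻ x in DD q, ‖hilbert f x‖ₑ ^ p * w x) ≤ C₁ ^ p * C₂ * ∫⁻ x, ‖f x‖ₑ ^ p * w x := by
    intro q hq
    obtain ⟨G, hG, hae⟩ := hit f hf q
    rw [lo_eq_self hR hq] at hae
    have hDD : MeasurableSet (DD q) := measurableSet_Ico
    calc (∫⁻ x in DD q, ‖hilbert f x‖ₑ ^ p * w x)
        ≤ ∫⁻ x in DD q, C₁ ^ p * ((SS f G x) ^ p * w x) := by
          apply lintegral_mono_ae
          rw [ae_restrict_iff' hDD]
          filter_upwards [hae] with x hx hxq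
          calc ‖hilbert f x‖ₑ ^ p * w x ≤ (C₁ * SS f G x) ^ p * w x := by
                gcongr
                exact hx hxq
            _ = C₁ ^ p * ((SS f G x) ^ p * w x) := by
                rw [ENNReal.mul_rpow_of_nonneg _ _ hp0, mul_assoc]
      _ = C₁ ^ p * ∫⁻ x in DD q, (SS f G x) ^ p * w x := lintegral_const_mul' _ _ hCp.ne
      _ ≤ C₁ ^ p * (C₂ * ∫⁻ x, ‖f x‖ₑ ^ p * w x) := by
          gcongr
          exact hs f hf q G hG
      _ = C₁ ^ p * C₂ * ∫⁻ x, ‖f x‖ₑ ^ p * w x := by rw [mul_assoc]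
  obtain ⟨m₀, hm₀⟩ : ∃ m₀ : ℕ, R < 2 ^ m₀ := pow_unbounded_of_one_lt R (by norm_num)
  let s : ℕ → Set ℝ := fun m => Ico (-(2 : ℝ) ^ (m + m₀)) (2 ^ (m + m₀))
  have hmono : Monotone s := by
    intro a b hab
    have h2 : (2 : ℝ) ^ (a + m₀) ≤ 2 ^ (b + m₀) :=
      pow_le_pow_right₀ (by norm_num) (by omega)
    exact Ico_subset_Ico (by linarith) h2
  have hU : (⋃ m, s m) = univ := by
    rw [eq_univ_iff_forall]
    intro x
    obtain ⟨n, hn⟩ : ∃ n : ℕ, |x| < 2 ^ n := pow_unbounded_of_one_lt _ (by norm_num)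
    refine mem_iUnion.mpr ⟨n, ?_⟩
    have h2 : (2 : ℝ) ^ n ≤ 2 ^ (n + m₀) := pow_le_pow_right₀ (by norm_num) (by omega)
    have h3 := abs_lt.mp hn
    exact ⟨by linarith [h3.1], by linarith [h3.2]⟩
  have hsm : ∀ m, (∫⁻ x in s m, ‖hilbert f x‖ₑ ^ p * w x) ≤
      2 * (C₁ ^ p * C₂) * ∫⁻ x, ‖f x‖ₑ ^ p * w x := by
    intro m
    have h2 : (2 : ℝ) ^ m₀ ≤ 2 ^ (m + m₀) := pow_le_pow_right₀ (by norm_num) (by omega)
    have hpos : (0 : ℝ) < 2 ^ (m + m₀) := by positivity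
    have ez : (2 : ℝ) ^ ((m + m₀ : ℕ) : ℤ) = 2 ^ (m + m₀) := zpow_natCast _ _
    have k1 := key (((m + m₀ : ℕ) : ℤ), 0) (by
      intro x hx
      have h3 := abs_le.mp hx
      show _ ≤ _ ∧ _ < _
      simp only [ez]
      push_cast
      constructor
      · linarith [h3.1]
      · linarith [h3.2])
    have k2 := key (((m + m₀ : ℕ) : ℤ), -1) (by
      intro x hx
      have h3 := abs_le.mp hx
      show _ ≤ _ ∧ _ < _
      simp only [ez]
      push_cast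
      constructor
      · linarith [h3.1]
      · linarith [h3.2])
    have hsub : s m ⊆ DD (((m + m₀ : ℕ) : ℤ), 0) ∪ DD (((m + m₀ : ℕ) : ℤ), -1) := by
      intro x hx
      obtain ⟨hx1, hx2⟩ := hx
      by_cases h0 : 0 ≤ x
      · left
        show _ ≤ _ ∧ _ < _
        simp only [ez]
        push_cast
        constructor
        · linarith
        · linarith
      · right
        show _ ≤ _ ∧ _ < _
        simp only [ez]
        push_cast
        constructor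
        · linarith
        · linarith
    calc (∫⁻ x in s m, ‖hilbert f x‖ₑ ^ p * w x)
        ≤ ∫⁻ x in DD (((m + m₀ : ℕ) : ℤ), 0) ∪ DD (((m + m₀ : ℕ) : ℤ), -1),
            ‖hilbert f x‖ₑ ^ p * w x := lintegral_mono_set hsub
      _ ≤ (∫⁻ x in DD (((m + m₀ : ℕ) : ℤ), 0), ‖hilbert f x‖ₑ ^ p * w x) +
            ∫⁻ x in DD (((m + m₀ : ℕ) : ℤ), -1), ‖hilbert f x‖ₑ ^ p * w x :=
          lintegral_union_le _ _ _
      _ ≤ C₁ ^ p * C₂ * (∫⁻ x, ‖f x‖ₑ ^ p * w x) + C₁ ^ p * C₂ * ∫⁻ x, ‖f x‖ₑ ^ p * w x :=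
          add_le_add k1 k2
      _ = 2 * (C₁ ^ p * C₂) * ∫⁻ x, ‖f x‖ₑ ^ p * w x := by ring
  rw [← setLIntegral_univ, ← hU, setLIntegral_iUnion_of_directed _ hmono.directed_le]
  exact iSup_le hsm

end Pool.Agent.U901.HW
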